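import Pool.Agent.NGM.StmtsL

/-!
# Row KER: growth of the kernel of a map onto `ℤ`
-/

set_option autoImplicit false

namespace Pool.Agent.NGM.H41

open scoped Pointwise Classical
open Filter

universe u

section

variable {Q : Type u} [Group Q] {K : Finset Q}

theorem pow_mono (h1 : (1 : Q) ∈ K) {m n : ℕ} (h : m ≤ n) : K ^ m ⊆ K ^ n :=
  Finset.pow_subset_pow_right h1 h

theorem inv_mem (hK : GenSet K) (n : ℕ) : ∀ x ∈ K ^ n, x⁻¹ ∈ K ^ n := by
  induction n with
  | zero =>
    intro x hx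
    rw [pow_zero, Finset.mem_one] at hx
    rw [hx, inv_one, pow_zero, Finset.mem_one]
  | succ n ih =>
    intro x hx
    rw [pow_succ, Finset.mem_mul] at hx
    obtain ⟨a, ha, b, hb, rfl⟩ := hx
    rw [mul_inv_rev, pow_succ']
    exact Finset.mul_mem_mul (hK.inv b hb) (ih a ha)

theorem ex_pow (hK : GenSet K) (x : Q) : ∃ n, x ∈ K ^ n := by
  have hx : x ∈ Subgroup.closure (K : Set Q) := by
    rw [hK.top]
    trivial
  induction hx using Subgroup.closure_induction with
  | mem y hy => exact ⟨1, by rw [pow_one]; exact hy⟩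
  | one => exact ⟨0, by rw [pow_zero]; exact Finset.mem_one.2 rfl⟩
  | mul y z _ _ hy hz =>
    obtain ⟨m, hm⟩ := hy
    obtain ⟨n, hn⟩ := hz
    exact ⟨m + n, by rw [pow_add]; exact Finset.mul_mem_mul hm hn⟩
  | inv y _ hy =>
    obtain ⟨m, hm⟩ := hy
    exact ⟨m, inv_mem hK m y hm⟩

/-- finitely many elements -/
theorem ex_pow_all (hK : GenSet K) (S : Finset Q) : ∃ n, ∀ x ∈ S, x ∈ K ^ n := by
  induction S using Finset.induction_on with
  | empty => exact ⟨0, fun x hx => absurd hx (Finset.notMem_empty x)⟩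
  | insert a S _ ih =>
    obtain ⟨m, hm⟩ := ih
    obtain ⟨n, hn⟩ := ex_pow hK a
    refine ⟨m + n, fun x hx => ?_⟩
    rcases Finset.mem_insert.1 hx with rfl | hx
    · exact pow_mono hK.one (Nat.le_add_left n m) hn
    · exact pow_mono hK.one (Nat.le_add_right m n) (hm x hx)

theorem pow_mem_pow {x : Q} {c : ℕ} (hx : x ∈ K ^ c) (n : ℕ) : x ^ n ∈ K ^ (c * n) := by
  rw [pow_mul]
  exact Finset.pow_mem_pow hx

end

theorem gr_eq {G : Type*} [Group G] [i : DecidableEq G] (K : Finset G) (n : ℕ) :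
    gr K n = (K ^ n).card := by
  unfold gr
  have h : i = fun a b => Classical.propDecidable (a = b) := Subsingleton.elim _ _
  subst h
  rfl

theorem ker : KerStmt.{u} := by
  intro Q _ K D hK hP H f hf K' hK'
  obtain ⟨t, ht⟩ := hf (Multiplicative.ofAdd 1)
  obtain ⟨c₀, hc₀⟩ := ex_pow_all hK (insert (t : Q) (K'.image fun w : f.ker => ((w : H) : Q)))
  obtain ⟨c, hc⟩ : ∃ c, c = c₀ + 1 := ⟨_, rfl⟩
  have hcm : ∀ x ∈ insert (t : Q) (K'.image fun w : f.ker => ((w : H) : Q)), x ∈ K ^ c := fun x hx =>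
    pow_mono hK.one (by omega) (hc₀ x hx)
  have htc : (t : Q) ∈ K ^ c := hcm _ (Finset.mem_insert_self _ _)
  have hwc : ∀ w ∈ K', ((w : H) : Q) ∈ K ^ c := fun w hw =>
    hcm _ (Finset.mem_insert_of_mem (Finset.mem_image_of_mem _ hw))
  -- elements of `K' ^ n`
  have hw : ∀ n, ∀ w ∈ K' ^ n, ((w : H) : Q) ∈ K ^ (c * n) := by
    intro n
    induction n with
    | zero =>
      intro w hw
      rw [pow_zero, Finset.mem_one] at hw
      rw [hw, Nat.mul_zero, pow_zero, Finset.mem_one]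
      rfl
    | succ n ih =>
      intro w hw
      rw [pow_succ, Finset.mem_mul] at hw
      obtain ⟨a, ha, b, hb, rfl⟩ := hw
      rw [Nat.mul_succ, pow_add]
      exact Finset.mul_mem_mul (ih a ha) (hwc b hb)
  -- the count
  have hcount : ∀ n, (n + 1) * gr K' n ≤ gr K (2 * c * n) := by
    intro n
    have h1 : ((Finset.range (n + 1)) ×ˢ (K' ^ n)).card = (n + 1) * gr K' n := by
      rw [Finset.card_product, Finset.card_range, gr_eq]
    rw [← h1]
    refine Finset.card_le_card_of_injOn (fun p => (t : Q) ^ p.1 * ((p.2 : H) : Q)) ?_ ?_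
    · rintro ⟨i, w⟩ hp
      obtain ⟨hi, hwn⟩ := Finset.mem_product.1 (Finset.mem_coe.1 hp)
      have hi' : i ≤ n := Nat.lt_succ_iff.1 (Finset.mem_range.1 hi)
      refine Finset.mem_coe.2 ?_
      rw [show 2 * c * n = c * n + c * n by ring, pow_add]
      refine Finset.mul_mem_mul ?_ (hw n w hwn)
      exact pow_mono hK.one (Nat.mul_le_mul_left c hi') (pow_mem_pow htc i)
    · rintro ⟨i, w⟩ _ ⟨j, v⟩ _ h
      have h2 : (t ^ i * (w : H)) = t ^ j * (v : H) := by
        apply Subtype.ext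
        push_cast
        exact h
      have h3 : ∀ (i : ℕ) (w : f.ker), f (t ^ i * (w : H)) = Multiplicative.ofAdd (i : ℤ) := by
        intro i w
        rw [map_mul, map_pow, ht, f.mem_ker.1 w.2, mul_one, ← ofAdd_nsmul]
        simp
      have h4 : (i : ℤ) = j := by
        have := congrArg f h2
        rw [h3, h3] at this
        exact Multiplicative.ofAdd.injective this
      have h5 : i = j := by exact_mod_cast h4
      subst h5
      have h6 : (w : H) = v := mul_left_cancel h2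
      exact Prod.ext rfl (Subtype.ext h6)
  obtain ⟨C, hC⟩ := hP
  refine ⟨C * (4 * c) ^ (D + 1), ?_⟩
  rw [frequently_atTop] at hC ⊢
  intro N
  obtain ⟨m, hm, hgm⟩ := hC (2 * c * (N + 1))
  have hc0 : 0 < 2 * c := by omega
  refine ⟨m / (2 * c), ?_, ?_⟩
  · have : N + 1 ≤ m / (2 * c) := (Nat.le_div_iff_mul_le hc0).2 (by rw [mul_comm]; exact hm)
    show N ≤ _
    omega
  · set n := m / (2 * c) with hn
    have hn1 : 1 ≤ n := by
      have : N + 1 ≤ n := (Nat.le_div_iff_mul_le hc0).2 (by rw [mul_comm]; exact hm)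
      omega
    have h1 : 2 * c * n ≤ m := Nat.mul_div_le m (2 * c)
    have h2 : m ≤ 4 * c * n := by
      have h3 := Nat.lt_mul_div_succ m hc0
      rw [← hn] at h3
      have h4 : 2 * c * (n + 1) ≤ 4 * c * n := by
        have : 2 * c * 1 ≤ 2 * c * n := Nat.mul_le_mul_left _ hn1
        nlinarith
      omega
    have h5 : gr K (2 * c * n) ≤ gr K m := Finset.card_le_card (pow_mono hK.one h1)
    have h6 : (n + 1) * gr K' n ≤ C * (4 * c * n) ^ (D + 1) :=
      (hcount n).trans (h5.trans (hgm.trans (Nat.mul_le_mul_left C (Nat.pow_le_pow_left h2 _))))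
    have h7 : C * (4 * c * n) ^ (D + 1) = C * (4 * c) ^ (D + 1) * n ^ D * n := by
      rw [mul_pow, pow_succ n D]
      ring
    rw [h7] at h6
    have h8 : C * (4 * c) ^ (D + 1) * n ^ D * n ≤ C * (4 * c) ^ (D + 1) * n ^ D * (n + 1) :=
      Nat.mul_le_mul_left _ (Nat.le_succ n)
    have h9 : (n + 1) * gr K' n ≤ (n + 1) * (C * (4 * c) ^ (D + 1) * n ^ D) := by
      rw [mul_comm (n + 1) (C * (4 * c) ^ (D + 1) * n ^ D)]
      exact h6.trans h8
    exact Nat.le_of_mul_le_mul_left h9 (Nat.succ_pos n)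

end Pool.Agent.NGM.H41
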