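import Pool.Agent.NGM.StmtsK

/-!
# Row MOM: second and fourth moments
-/

set_option autoImplicit false

namespace Pool.Agent.NGM.H41

open scoped Pointwise Classical
open Filter Topology

section

variable {Q : Type*} [Group Q] {K : Finset Q}

theorem card_pos (hK : GenSet K) : (0 : ℝ) < K.card := by
  exact_mod_cast Finset.card_pos.2 ⟨1, hK.one⟩

theorem av_mono {F G : Q → ℝ} (h : ∀ x, F x ≤ G x) (x : Q) : av K F x ≤ av K G x := by
  unfold av
  exact mul_le_mul_of_nonneg_left (Finset.sum_le_sum fun s _ => h _) (by positivity)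

theorem it_mono {F G : Q → ℝ} (h : ∀ x, F x ≤ G x) (n : ℕ) :
    ∀ x, (av K)^[n] F x ≤ (av K)^[n] G x := by
  induction n with
  | zero => exact h
  | succ n ih =>
    intro x
    rw [Function.iterate_succ_apply', Function.iterate_succ_apply']
    exact av_mono ih x

theorem av_const (hK : GenSet K) (a : ℝ) : av K (fun _ => a) = fun _ => a := by
  funext x
  unfold av
  rw [Finset.sum_const, nsmul_eq_mul, ← mul_assoc, inv_mul_cancel₀ (card_pos hK).ne', one_mul]

theorem it_const (hK : GenSet K) (a : ℝ) (n : ℕ) : (av K)^[n] (fun _ => a) = fun _ => a := by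
  induction n with
  | zero => rfl
  | succ n ih => rw [Function.iterate_succ_apply', ih, av_const hK]

theorem it_add (F G : Q → ℝ) (n : ℕ) : (av K)^[n] (F + G) = (av K)^[n] F + (av K)^[n] G := by
  induction n with
  | zero => rfl
  | succ n ih => rw [Function.iterate_succ_apply', Function.iterate_succ_apply',
      Function.iterate_succ_apply', ih, av_add]

theorem it_smul (c : ℝ) (F : Q → ℝ) (n : ℕ) : (av K)^[n] (c • F) = c • (av K)^[n] F := by
  induction n with
  | zero => rfl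
  | succ n ih => rw [Function.iterate_succ_apply', Function.iterate_succ_apply', ih, av_smul]

/-- a pointwise bound by an affine function of `f` -/
theorem pp_le (hK : GenSet K) {f F : Q → ℝ} (hf : av K (av K f) = f) {x : Q} {A B : ℝ}
    (h : ∀ s ∈ K, ∀ t ∈ K, F (x * s * t) ≤ A + B * f (x * s * t)) :
    av K (av K F) x ≤ A + B * f x := by
  have hc := card_pos hK
  have e1 : A + B * f x = (K.card : ℝ)⁻¹ * ∑ s ∈ K, ((K.card : ℝ)⁻¹ *
      ∑ t ∈ K, (A + B * f (x * s * t))) := by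
    have e2 : f x = (K.card : ℝ)⁻¹ * ∑ s ∈ K, ((K.card : ℝ)⁻¹ * ∑ t ∈ K, f (x * s * t)) :=
      (congrFun hf x).symm
    have e3 : ∀ s, (K.card : ℝ)⁻¹ * ∑ t ∈ K, (A + B * f (x * s * t)) =
        A + B * ((K.card : ℝ)⁻¹ * ∑ t ∈ K, f (x * s * t)) := by
      intro s
      rw [Finset.sum_add_distrib, Finset.sum_const, nsmul_eq_mul, ← Finset.mul_sum, mul_add,
        ← mul_assoc, inv_mul_cancel₀ hc.ne']
      ring
    rw [Finset.sum_congr rfl fun s _ => e3 s, Finset.sum_add_distrib, Finset.sum_const,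
      nsmul_eq_mul, ← Finset.mul_sum, mul_add, ← mul_assoc, inv_mul_cancel₀ hc.ne', one_mul,
      mul_left_comm, ← e2]
  rw [e1]
  unfold av
  refine mul_le_mul_of_nonneg_left (Finset.sum_le_sum fun s hs => ?_) (by positivity)
  exact mul_le_mul_of_nonneg_left (Finset.sum_le_sum fun t ht => h s hs t ht) (by positivity)

theorem diff_le {f : Q → ℝ} {L : ℝ} (hL : Lip K f L) (x : Q) {s t : Q} (hs : s ∈ K) (ht : t ∈ K) :
    |f (x * s * t) - f x| ≤ 2 * L := by
  have h1 := hL x s hs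
  have h2 := hL (x * s) t ht
  have h3 := abs_add_le (f (x * s * t) - f (x * s)) (f (x * s) - f x)
  rw [sub_add_sub_cancel] at h3
  linarith

theorem two {f : Q → ℝ} (hK : GenSet K) (hf : av K (av K f) = f) {L : ℝ} (hL : Lip K f L) (x : Q) :
    av K (av K fun x => f x ^ 2) x ≤ f x ^ 2 + 4 * L ^ 2 := by
  have h := pp_le hK (F := fun x => f x ^ 2) hf (x := x) (A := -(f x ^ 2) + 4 * L ^ 2)
    (B := 2 * f x) fun s hs t ht => by
      have h1 := diff_le hL x hs ht
      have h2 := sq_le_sq' (abs_le.1 h1).1 (abs_le.1 h1).2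
      show f (x * s * t) ^ 2 ≤ _
      nlinarith
  refine h.trans (le_of_eq ?_)
  ring

theorem four_ineq {a y L : ℝ} (h : |y - a| ≤ 2 * L) :
    y ^ 4 ≤ (-(3 * a ^ 4) + 32 * L ^ 2 * a ^ 2 + 48 * L ^ 4) + 4 * a ^ 3 * y := by
  have h1 : (y - a) ^ 2 ≤ 4 * L ^ 2 := by
    have := sq_le_sq' (abs_le.1 h).1 (abs_le.1 h).2
    linarith
  have h2 : (y - a) ^ 4 ≤ 16 * L ^ 4 := by
    have h3 : ((y - a) ^ 2) ^ 2 ≤ (4 * L ^ 2) ^ 2 := pow_le_pow_left₀ (sq_nonneg _) h1 2
    linarith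
  have h4 : a ^ 2 * (y - a) ^ 2 ≤ a ^ 2 * (4 * L ^ 2) := mul_le_mul_of_nonneg_left h1 (sq_nonneg a)
  have h5 : 4 * a * (y - a) ^ 3 ≤ 2 * (a ^ 2 * (y - a) ^ 2) + 2 * (y - a) ^ 4 := by
    have h6 : 0 ≤ 2 * ((y - a) ^ 2 * (a - (y - a)) ^ 2) := by positivity
    nlinarith
  have h7 : y ^ 4 = a ^ 4 + 4 * a ^ 3 * (y - a) + 6 * (a ^ 2 * (y - a) ^ 2) + 4 * a * (y - a) ^ 3 +
      (y - a) ^ 4 := by ring
  rw [h7]
  linarith

theorem fourth {f : Q → ℝ} (hK : GenSet K) (hf : av K (av K f) = f) {L : ℝ} (hL : Lip K f L)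
    (x : Q) : av K (av K fun x => f x ^ 4) x ≤
      f x ^ 4 + 32 * L ^ 2 * f x ^ 2 + 48 * L ^ 4 := by
  have h := pp_le hK (F := fun x => f x ^ 4) hf (x := x)
    (A := -(3 * f x ^ 4) + 32 * L ^ 2 * f x ^ 2 + 48 * L ^ 4) (B := 4 * f x ^ 3)
    fun s hs t ht => four_ineq (diff_le hL x hs ht)
  refine h.trans (le_of_eq ?_)
  ring

theorem it_two (F : Q → ℝ) (n : ℕ) :
    (av K)^[2 * (n + 1)] F = (av K)^[2 * n] (av K (av K F)) := by
  rw [show 2 * (n + 1) = 2 * n + 1 + 1 by ring, Function.iterate_succ_apply,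
    Function.iterate_succ_apply]

end

theorem mom.{u} : MomStmt.{u} := by
  intro Q _ K hK f hf L hL n
  obtain ⟨hf1, hf2, -⟩ := hf
  have H2 : ∀ n : ℕ, (av K)^[2 * n] (fun x => f x ^ 2) 1 ≤ 4 * L ^ 2 * n := by
    intro n
    induction n with
    | zero =>
      simp [hf1]
    | succ n ih =>
      rw [it_two]
      have h1 := it_mono (K := K) (two hK hf2 hL) (2 * n) 1
      have h2 : (fun x => f x ^ 2 + 4 * L ^ 2) = (fun x => f x ^ 2) + fun _ => 4 * L ^ 2 := rfl
      rw [h2, it_add, it_const hK] at h1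
      refine h1.trans ?_
      rw [Pi.add_apply]
      push_cast
      linarith
  refine ⟨H2 n, ?_⟩
  induction n with
  | zero =>
    simp [hf1]
  | succ n ih =>
    rw [it_two]
    have h1 := it_mono (K := K) (fourth hK hf2 hL) (2 * n) 1
    have h2 : (fun x => f x ^ 4 + 32 * L ^ 2 * f x ^ 2 + 48 * L ^ 4) =
        ((fun x => f x ^ 4) + (32 * L ^ 2) • fun x => f x ^ 2) + fun _ => 48 * L ^ 4 := rfl
    rw [h2, it_add, it_add, it_smul, it_const hK] at h1
    refine h1.trans ?_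
    rw [Pi.add_apply, Pi.add_apply, Pi.smul_apply, smul_eq_mul]
    have h3 := mul_le_mul_of_nonneg_left (H2 n) (show 0 ≤ 32 * L ^ 2 by positivity)
    have h4 : 0 ≤ L ^ 4 := by positivity
    have h5 : (0 : ℝ) ≤ n := Nat.cast_nonneg n
    push_cast
    nlinarith [mul_nonneg h4 h5]

end Pool.Agent.NGM.H41
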